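import Mathlib

/-!
# MP_62a602_co: matroids in `U(q)` with more lines than a projective plane of order `q`

Let `n ≥ 5` be a prime power. Take the affine plane over the field with `n` elements and replace
every vertical line by the `n (n - 1) / 2` pairs of its points. Every point of the resulting rank-3
matroid is on `n + (n - 1) = 2 n - 1` lines and every line has at most `n` points, so that there is
no minor `U_{2, 2 n}`, while the number of lines is `n ^ 2 (n + 1) / 2`, which exceeds
`q ^ 2 + q + 1` for `q = 2 n - 2`.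
-/

set_option autoImplicit false

namespace Pool.Agent.Results.MP_62a602_co.ManyLines

open Set

/-- A matroid is simple if it has no circuits with one or two elements. -/
def IsSimple {α : Type} (M : Matroid α) : Prop := ∀ x ∈ M.E, ∀ y ∈ M.E, M.Indep {x, y}

/-- `M` is in `U(q)`: no minor of `M` is isomorphic to the uniform matroid `U_{2,q+2}`, that is, no
minor of `M` has exactly `q + 2` elements and the sets with at most two elements as independent
sets. -/
def InU {α : Type} (q : ℕ) (M : Matroid α) : Prop :=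
  ∀ N : Matroid α, N.IsMinor M →
    ¬ (N.E.encard = q + 2 ∧ ∀ I ⊆ N.E, (N.Indep I ↔ I.encard ≤ 2))

/-- The Gaussian binomial coefficient, for `q ≥ 2`. -/
def gaussBinom (r k q : ℕ) : ℚ :=
  ∏ i ∈ Finset.range k, ((q : ℚ) ^ (r - i) - 1) / ((q : ℚ) ^ (i + 1) - 1)

/-! ### The rank-three matroid of a linear space -/

/-- Any two points are on exactly one line. -/
structure IsLinearSpace {α : Type} (𝓛 : Set (Set α)) : Prop where
  exists_pair : ∀ L ∈ 𝓛, ∃ x ∈ L, ∃ y ∈ L, x ≠ y
  exists_line : ∀ x y, x ≠ y → ∃ L ∈ 𝓛, x ∈ L ∧ y ∈ L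
  unique : ∀ L ∈ 𝓛, ∀ L' ∈ 𝓛, ∀ x y, x ≠ y → x ∈ L → y ∈ L → x ∈ L' → y ∈ L' → L = L'

section LinearSpace

variable {α : Type} [Finite α] {𝓛 : Set (Set α)}

/-- The independent sets of the matroid of a linear space. -/
def LIndep (𝓛 : Set (Set α)) (I : Set α) : Prop := I.ncard ≤ 3 ∧ ∀ L ∈ 𝓛, (I ∩ L).ncard ≤ 2

theorem lIndep_of_ncard {I : Set α} (h : I.ncard ≤ 2) : LIndep 𝓛 I :=
  ⟨by omega, fun _ _ => (ncard_le_ncard inter_subset_left (toFinite I)).trans h⟩

/-- The rank-three matroid of a linear space. -/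
def mat (h : IsLinearSpace 𝓛) : Matroid α :=
  (IndepMatroid.ofFinite (E := univ) (toFinite _) (LIndep 𝓛)
    (lIndep_of_ncard (by simp))
    (fun I J hJ hIJ => ⟨(ncard_le_ncard hIJ (toFinite J)).trans hJ.1, fun L hL =>
      (ncard_le_ncard (inter_subset_inter_left L hIJ) (toFinite _)).trans (hJ.2 L hL)⟩)
    (by
      intro I J hI hJ hIJ
      have hJ3 := hJ.1
      rcases Nat.lt_or_ge I.ncard 2 with h2 | h2
      · obtain ⟨e, heJ, heI⟩ := exists_mem_notMem_of_ncard_lt_ncard hIJ (toFinite I)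
        refine ⟨e, heJ, heI, lIndep_of_ncard ?_⟩
        have := ncard_insert_le e I
        omega
      · have hI2 : I.ncard = 2 := by omega
        obtain ⟨a, b, hab, rfl⟩ := ncard_eq_two.1 hI2
        obtain ⟨L, hL, haL, hbL⟩ := h.exists_line a b hab
        obtain ⟨c, hcJ, hcL⟩ : ∃ c ∈ J, c ∉ L := by
          by_contra hcon
          push Not at hcon
          have h3 := hJ.2 L hL
          rw [inter_eq_left.2 hcon] at h3
          omega
        have hc : c ∉ ({a, b} : Set α) := by
          rintro (rfl | rfl)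
          · exact hcL haL
          · exact hcL hbL
        refine ⟨c, hcJ, hc, ?_, fun L' hL' => ?_⟩
        · have := ncard_insert_le c ({a, b} : Set α)
          omega
        · by_contra hcon
          have h3 : insert c ({a, b} : Set α) ∩ L' = insert c {a, b} := by
            refine eq_of_subset_of_ncard_le inter_subset_left ?_ (toFinite _)
            have := ncard_insert_le c ({a, b} : Set α)
            omega
          rw [inter_eq_left] at h3
          have := h.unique L hL L' hL' a b hab haL hbL (h3 (by simp)) (h3 (by simp))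
          subst this
          exact hcL (h3 (by simp)))
    (fun I _ => subset_univ I)).matroid

variable (h : IsLinearSpace 𝓛)

theorem mat_E : (mat h).E = univ := rfl

theorem mat_indep {I : Set α} : (mat h).Indep I ↔ LIndep 𝓛 I := Iff.rfl

theorem mat_simple : IsSimple (mat h) := fun x _ y _ => by
  rw [mat_indep]
  exact lIndep_of_ncard (ncard_insert_le x {y} |>.trans (by simp))

theorem indep_triple {a b c : α} {L : Set α} (hL : L ∈ 𝓛) (hab : a ≠ b) (ha : a ∈ L) (hb : b ∈ L)
    (hc : c ∉ L) : (mat h).Indep {c, a, b} := by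
  rw [mat_indep]
  refine ⟨?_, fun L' hL' => ?_⟩
  · have := ncard_insert_le c ({a, b} : Set α)
    have := ncard_pair hab
    omega
  · by_contra hcon
    have h4 := ncard_pair hab
    have h3 : ({c, a, b} : Set α) ∩ L' = {c, a, b} := by
      refine eq_of_subset_of_ncard_le inter_subset_left ?_ (toFinite _)
      have := ncard_insert_le c ({a, b} : Set α)
      omega
    rw [inter_eq_left] at h3
    have := h.unique L hL L' hL' a b hab ha hb (h3 (by simp)) (h3 (by simp))
    subst this
    exact hc (h3 (by simp))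

theorem eRk_line {L : Set α} (hL : L ∈ 𝓛) : (mat h).eRk L = 2 := by
  apply le_antisymm
  · rw [Matroid.eRk_le_iff]
    intro I hIL hI
    have h1 := ((mat_indep h).1 hI).2 L hL
    rw [inter_eq_left.2 hIL] at h1
    rw [← (toFinite I).cast_ncard_eq]
    exact_mod_cast h1
  · rw [Matroid.le_eRk_iff]
    obtain ⟨x, hx, y, hy, hxy⟩ := h.exists_pair L hL
    exact ⟨{x, y}, pair_subset hx hy, (mat_indep h).2 (lIndep_of_ncard (ncard_pair hxy).le),
      encard_pair hxy⟩

theorem isFlat_line {L : Set α} (hL : L ∈ 𝓛) : (mat h).IsFlat L := by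
  rw [Matroid.isFlat_iff_closure_eq]
  apply Subset.antisymm
  · intro c hc
    by_contra hcL
    obtain ⟨x, hx, y, hy, hxy⟩ := h.exists_pair L hL
    have h1 := (mat h).closure_insert_eq_of_mem_closure hc
    have h2 : (mat h).eRk (insert c L) = 2 := by
      rw [← Matroid.eRk_closure_eq, h1, Matroid.eRk_closure_eq, eRk_line h hL]
    have h3 := (indep_triple h hL hxy hx hy hcL).encard_le_eRk_of_subset
      (show ({c, x, y} : Set α) ⊆ insert c L from insert_subset_insert (pair_subset hx hy))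
    rw [h2] at h3
    have hc' : c ∉ ({x, y} : Set α) := by
      rintro (rfl | rfl)
      · exact hcL hx
      · exact hcL hy
    rw [encard_insert_of_notMem hc', encard_pair hxy] at h3
    norm_num at h3
  · exact (mat h).subset_closure L (subset_univ L)

theorem eRank_mat {L : Set α} (hL : L ∈ 𝓛) {c : α} (hc : c ∉ L) : (mat h).eRank = 3 := by
  rw [Matroid.eRank_def]
  apply le_antisymm
  · rw [Matroid.eRk_le_iff]
    intro I _ hI
    rw [← (toFinite I).cast_ncard_eq]
    exact_mod_cast ((mat_indep h).1 hI).1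
  · rw [Matroid.le_eRk_iff]
    obtain ⟨x, hx, y, hy, hxy⟩ := h.exists_pair L hL
    refine ⟨{c, x, y}, subset_univ _, indep_triple h hL hxy hx hy hc, ?_⟩
    have hc' : c ∉ ({x, y} : Set α) := by
      rintro (rfl | rfl)
      · exact hc hx
      · exact hc hy
    rw [encard_insert_of_notMem hc', encard_pair hxy]
    norm_num

/-- If no line has `q + 2` points and, for every point `c`, the points different from `c` can be
coloured with at most `q + 1` colours such that points of the same colour are collinear with `c`,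
the matroid is in `U(q)`. -/
theorem inU {q : ℕ} (hq : 1 ≤ q) (h1 : ∀ L ∈ 𝓛, L.ncard < q + 2)
    (h2 : ∀ c : α, ∃ (β : Type) (_ : Finite β) (f : α → β), Nat.card β < q + 2 ∧
      ∀ x y, x ≠ c → y ≠ c → x ≠ y → f x = f y → ∃ L ∈ 𝓛, c ∈ L ∧ x ∈ L ∧ y ∈ L) :
    InU q (mat h) := by
  rintro N ⟨C, D, rfl⟩ ⟨hcard, hind⟩
  obtain ⟨B, hB⟩ := (mat h).exists_isBasis' C
  set N := ((mat h).contract C).delete D with hN
  have hNind : ∀ I ⊆ N.E, (N.Indep I ↔ (mat h).Indep (I ∪ B)) := by
    intro I hI
    rw [hN, Matroid.delete_indep_iff, hB.contract_indep_iff]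
    have hd1 : Disjoint C I := by
      rw [disjoint_right]
      exact fun x hx => (hI hx).1.2
    have hd2 : Disjoint I D := by
      rw [disjoint_left]
      exact fun x hx => (hI hx).2
    simp [hd1, hd2]
  have hNB : ∀ x ∈ N.E, x ∉ B := fun x hx hxB => hx.1.2 (hB.subset hxB)
  have hNcard : N.E.ncard = q + 2 := by
    rw [ncard_def, hcard]
    rfl
  -- three elements
  obtain ⟨x, hx, y, hy, hxy⟩ : ∃ x ∈ N.E, ∃ y ∈ N.E, x ≠ y := by
    have : 1 < N.E.ncard := by omega
    exact (one_lt_ncard (toFinite _)).1 this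
  have hpair : ∀ x ∈ N.E, ∀ y ∈ N.E, x ≠ y → (mat h).Indep ({x, y} ∪ B) := fun x hx y hy hxy =>
    (hNind _ (pair_subset hx hy)).1 ((hind _ (pair_subset hx hy)).2 (encard_pair hxy).le)
  have htriple : ∀ x ∈ N.E, ∀ y ∈ N.E, ∀ z ∈ N.E, x ≠ y → z ∉ ({x, y} : Set α) →
      ¬ (mat h).Indep ({z, x, y} ∪ B) := by
    intro x hx y hy z hz hxy hzxy hI
    have hsub : ({z, x, y} : Set α) ⊆ N.E := insert_subset hz (pair_subset hx hy)
    have h3 := (hind _ hsub).1 ((hNind _ hsub).2 hI)
    rw [encard_insert_of_notMem hzxy, encard_pair hxy] at h3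
    norm_num at h3
  have hB1 : B.ncard ≤ 1 := by
    have h3 := ((mat_indep h).1 (hpair x hx y hy hxy)).1
    rw [ncard_union_eq (by
      rw [disjoint_left]
      rintro z (rfl | rfl)
      · exact hNB _ hx
      · exact hNB _ hy) (toFinite _) (toFinite _), ncard_pair hxy] at h3
    omega
  rcases Nat.lt_or_ge B.ncard 1 with hB0 | hB0
  · -- `N` is a restriction: its ground set is contained in a line
    have hBe : B = ∅ := by
      rw [← ncard_eq_zero (toFinite B)]
      omega
    obtain ⟨L, hL, hxL, hyL⟩ := h.exists_line x y hxy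
    have hsub : N.E ⊆ L := by
      intro z hz
      by_contra hzL
      have hz' : z ∉ ({x, y} : Set α) := by
        rintro (rfl | rfl)
        · exact hzL hxL
        · exact hzL hyL
      refine htriple x hx y hy z hz hxy hz' ?_
      rw [hBe, union_empty]
      exact indep_triple h hL hxy hxL hyL hzL
    have := ncard_le_ncard hsub (toFinite L)
    have := h1 L hL
    omega
  · obtain ⟨c, rfl⟩ := ncard_eq_one.1 (le_antisymm hB1 hB0)
    obtain ⟨β, hβ, f, hcardβ, hf⟩ := h2 c
    have hle : N.E.ncard ≤ Nat.card β := by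
      rw [← Nat.card_coe_set_eq]
      refine Nat.card_le_card_of_injective (fun z : N.E => f z.1) ?_
      rintro ⟨z, hz⟩ ⟨w, hw⟩ hzw
      by_contra hne
      have hzw' : z ≠ w := fun h => hne (Subtype.ext h)
      obtain ⟨L, hL, hcL, hzL, hwL⟩ := hf z w (fun h => hNB z hz h) (fun h => hNB w hw h) hzw' hzw
      have h3 := ((mat_indep h).1 (hpair z hz w hw hzw')).2 L hL
      have h4 : ({z, w} ∪ {c} : Set α) ∩ L = {z, w} ∪ {c} := by
        rw [inter_eq_left]
        rintro u ((rfl | rfl) | rfl)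
        · exact hzL
        · exact hwL
        · exact hcL
      rw [h4, ncard_union_eq (by
        rw [disjoint_left]
        rintro u (rfl | rfl)
        · exact hNB _ hz
        · exact hNB _ hw) (toFinite _) (toFinite _), ncard_pair hzw', ncard_singleton] at h3
      omega
    omega

end LinearSpace

/-! ### The affine plane with broken vertical lines -/

section Plane

variable (F : Type) [Field F] [Finite F]

/-- A non-vertical line. -/
def nv (p : F × F) : Set (F × F) := {x | x.2 = p.1 * x.1 + p.2}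

/-- A pair of points on a vertical line. -/
def vt (p : F × {s : Finset F // s.card = 2}) : Set (F × F) := {x | x.1 = p.1 ∧ x.2 ∈ p.2.1}

/-- All lines. -/
def lines : Set (Set (F × F)) := range (nv F) ∪ range (vt F)

variable {F}

omit [Finite F] in
theorem eq_of_nv {p x y : F × F} (hx : x ∈ nv F p) (hy : y ∈ nv F p) (h : x.1 = y.1) : x = y := by
  simp only [nv, mem_ofPred_eq] at hx hy
  exact Prod.ext h (by rw [hx, hy, h])

omit [Finite F] in
theorem isLinearSpace : IsLinearSpace (lines F) := by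
  classical
  refine ⟨?_, ?_, ?_⟩
  · rintro L (⟨p, rfl⟩ | ⟨⟨x, s, hs⟩, rfl⟩)
    · exact ⟨(0, p.2), by simp [nv], (1, p.1 + p.2), by simp [nv], by simp⟩
    · obtain ⟨a, b, hab, rfl⟩ := Finset.card_eq_two.1 hs
      exact ⟨(x, a), by simp [vt], (x, b), by simp [vt], by simpa using hab⟩
  · rintro ⟨x1, y1⟩ ⟨x2, y2⟩ hne
    by_cases hx : x1 = x2
    · subst hx
      have hy : y1 ≠ y2 := fun h => hne (by rw [h])
      exact ⟨_, Or.inr ⟨(x1, ⟨{y1, y2}, Finset.card_pair hy⟩), rfl⟩, by simp [vt], by simp [vt]⟩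
    · have hx' : x2 - x1 ≠ 0 := sub_ne_zero.2 (Ne.symm hx)
      refine ⟨_, Or.inl ⟨((y2 - y1) / (x2 - x1), y1 - (y2 - y1) / (x2 - x1) * x1), rfl⟩, ?_, ?_⟩
      · simp [nv]
      · simp only [nv, mem_ofPred_eq]
        field_simp
        ring
  · rintro L (⟨p, rfl⟩ | ⟨⟨a, s, hs⟩, rfl⟩) L' (⟨p', rfl⟩ | ⟨⟨a', s', hs'⟩, rfl⟩) x y hxy hx hy hx' hy'
    · have h1 : x.1 ≠ y.1 := fun h => hxy (eq_of_nv hx hy h)
      simp only [nv, mem_ofPred_eq] at hx hy hx' hy'
      have h2 : (p.1 - p'.1) * (x.1 - y.1) = 0 := by linear_combination hx' - hx - hy' + hy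
      rcases mul_eq_zero.1 h2 with h3 | h3
      · have h4 : p.1 = p'.1 := sub_eq_zero.1 h3
        have h5 : p.2 = p'.2 := by
          rw [h4] at hx
          linear_combination hx' - hx
        rw [Prod.ext h4 h5]
      · exact absurd (sub_eq_zero.1 h3) h1
    · exact absurd (eq_of_nv hx hy (hx'.1.trans hy'.1.symm)) hxy
    · exact absurd (eq_of_nv hx' hy' (hx.1.trans hy.1.symm)) hxy
    · have h1 : a = a' := hx.1.symm.trans hx'.1
      subst h1
      have h2 : x.2 ≠ y.2 := fun h => hxy (Prod.ext (hx.1.trans hy.1.symm) h)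
      have h3 : ∀ t : Finset F, t.card = 2 → x.2 ∈ t → y.2 ∈ t → t = {x.2, y.2} := by
        intro t ht hxt hyt
        symm
        refine Finset.eq_of_subset_of_card_le ?_ ?_
        · intro z hz
          rw [Finset.mem_insert, Finset.mem_singleton] at hz
          rcases hz with rfl | rfl
          · exact hxt
          · exact hyt
        · rw [ht, Finset.card_pair h2]
      have h4 : s = s' := (h3 s hs hx.2 hy.2).trans (h3 s' hs' hx'.2 hy'.2).symm
      subst h4
      rfl

theorem card_line_lt {q : ℕ} (hq : Nat.card F < q + 2) (hq2 : 2 < q + 2) :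
    ∀ L ∈ lines F, L.ncard < q + 2 := by
  classical
  rintro L (⟨p, rfl⟩ | ⟨⟨a, s, hs⟩, rfl⟩)
  · refine lt_of_le_of_lt ?_ hq
    rw [← Nat.card_coe_set_eq]
    refine Nat.card_le_card_of_injective (fun z : nv F p => z.1.1) ?_
    rintro ⟨z, hz⟩ ⟨w, hw⟩ h
    exact Subtype.ext (eq_of_nv hz hw h)
  · refine lt_of_le_of_lt ?_ hq2
    have h1 : (vt F (a, ⟨s, hs⟩)) = (fun y => (a, y)) '' (s : Set F) := by
      ext x
      simp only [vt, mem_ofPred_eq, mem_image, SetLike.mem_coe]
      constructor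
      · rintro ⟨rfl, h⟩
        exact ⟨x.2, h, rfl⟩
      · rintro ⟨y, hy, rfl⟩
        exact ⟨rfl, hy⟩
    rw [h1]
    refine (ncard_image_le (toFinite _)).trans ?_
    rw [ncard_coe_finset, hs]

theorem colouring {q : ℕ} (hq : 2 * Nat.card F ≤ q + 2) (c : F × F) :
    ∃ (β : Type) (_ : Finite β) (f : F × F → β), Nat.card β < q + 2 ∧
      ∀ x y, x ≠ c → y ≠ c → x ≠ y → f x = f y → ∃ L ∈ lines F, c ∈ L ∧ x ∈ L ∧ y ∈ L := by
  classical
  have := Fintype.ofFinite F
  refine ⟨F ⊕ {y : F // y ≠ c.2}, inferInstance, fun p => if h : p.1 = c.1 then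
    (if h' : p.2 = c.2 then Sum.inl 0 else Sum.inr ⟨p.2, h'⟩) else
      Sum.inl ((p.2 - c.2) / (p.1 - c.1)), ?_, ?_⟩
  · rw [Nat.card_sum]
    have h1 : Nat.card {y : F // y ≠ c.2} = Nat.card F - 1 := by
      rw [Nat.card_eq_fintype_card, Nat.card_eq_fintype_card, Fintype.card_subtype_compl,
        Fintype.card_subtype_eq]
    have h2 : 0 < Nat.card F := Nat.card_pos
    rw [h1]
    omega
  · intro x y hx hy hxy hf
    by_cases hx1 : x.1 = c.1
    · have hx2 : x.2 ≠ c.2 := fun h => hx (Prod.ext hx1 h)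
      by_cases hy1 : y.1 = c.1
      · have hy2 : y.2 ≠ c.2 := fun h => hy (Prod.ext hy1 h)
        simp only [hx1, hx2, hy1, hy2, dite_true, dite_false, Sum.inr.injEq,
          Subtype.mk.injEq] at hf
        exact absurd (Prod.ext (hx1.trans hy1.symm) hf) hxy
      · simp [hx1, hx2, hy1] at hf
    · by_cases hy1 : y.1 = c.1
      · have hy2 : y.2 ≠ c.2 := fun h => hy (Prod.ext hy1 h)
        simp [hx1, hy1, hy2] at hf
      · simp only [hx1, hy1, dite_false, Sum.inl.injEq] at hf
        have hx' : x.1 - c.1 ≠ 0 := sub_ne_zero.2 hx1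
        have hy' : y.1 - c.1 ≠ 0 := sub_ne_zero.2 hy1
        set m := (x.2 - c.2) / (x.1 - c.1) with hm
        have h1 : x.2 - c.2 = m * (x.1 - c.1) := by rw [hm]; field_simp
        have h2 : y.2 - c.2 = m * (y.1 - c.1) := by rw [hf]; field_simp
        refine ⟨_, Or.inl ⟨(m, c.2 - m * c.1), rfl⟩, ?_, ?_, ?_⟩
        · simp [nv]
        · simp only [nv, mem_ofPred_eq]
          linear_combination h1
        · simp only [nv, mem_ofPred_eq]
          linear_combination h2

theorem card_lines :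
    Nat.card F ^ 2 + Nat.card F * (Nat.card F).choose 2 ≤ (lines F).ncard := by
  classical
  have := Fintype.ofFinite F
  have h1 : Nat.card ((F × F) ⊕ (F × {s : Finset F // s.card = 2})) =
      Nat.card F ^ 2 + Nat.card F * (Nat.card F).choose 2 := by
    rw [Nat.card_sum, Nat.card_prod, Nat.card_prod, sq]
    congr 2
    rw [Nat.card_eq_fintype_card, Fintype.card_finset_len, Nat.card_eq_fintype_card]
  rw [← h1, ← Nat.card_coe_set_eq]
  refine Nat.card_le_card_of_injective (fun z : (F × F) ⊕ (F × {s : Finset F // s.card = 2}) =>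
    (⟨Sum.elim (nv F) (vt F) z, by
      rcases z with z | z
      · exact Or.inl ⟨z, rfl⟩
      · exact Or.inr ⟨z, rfl⟩⟩ : lines F)) ?_
  have hvt : ∀ (z : F × {s : Finset F // s.card = 2}), ∃ a b : F, a ≠ b ∧ z.2.1 = {a, b} := by
    rintro ⟨x, s, hs⟩
    obtain ⟨a, b, hab, rfl⟩ := Finset.card_eq_two.1 hs
    exact ⟨a, b, hab, rfl⟩
  have hmix : ∀ (z : F × F) (w : F × {s : Finset F // s.card = 2}), nv F z ≠ vt F w := by
    intro z w hzw
    have h2 : ((0 : F), z.2) ∈ vt F w := by rw [← hzw]; simp [nv]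
    have h3 : ((1 : F), z.1 + z.2) ∈ vt F w := by rw [← hzw]; simp [nv]
    have h4 : (0 : F) = 1 := h2.1.trans h3.1.symm
    exact zero_ne_one h4
  rintro (z | z) (w | w) h
  · have h2 : nv F z = nv F w := congrArg Subtype.val h
    have h3 : ((0 : F), z.2) ∈ nv F w := by rw [← h2]; simp [nv]
    have h4 : ((1 : F), z.1 + z.2) ∈ nv F w := by rw [← h2]; simp [nv]
    simp only [nv, mem_ofPred_eq, mul_zero, zero_add, mul_one] at h3 h4
    congr 1
    refine Prod.ext ?_ h3
    linear_combination h4 - h3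
  · exact absurd (congrArg Subtype.val h) (hmix z w)
  · exact absurd (congrArg Subtype.val h).symm (hmix w z)
  · have h2 : vt F z = vt F w := congrArg Subtype.val h
    obtain ⟨a, b, hab, hz⟩ := hvt z
    have h3 : (z.1, a) ∈ vt F w := by
      rw [← h2]
      exact ⟨rfl, by rw [hz]; simp⟩
    have h4 : z.2.1 = w.2.1 := by
      ext y
      have h5 : (z.1, y) ∈ vt F z ↔ (z.1, y) ∈ vt F w := by rw [h2]
      simp only [vt, mem_ofPred_eq, true_and] at h5
      rw [h5]
      exact ⟨fun h => h.2, fun h => ⟨h3.1, h⟩⟩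
    congr 1
    exact Prod.ext h3.1 (Subtype.ext h4)

end Plane

theorem gauss_eq {q : ℕ} (hq : 2 ≤ q) : gaussBinom 3 2 q = (q : ℚ) ^ 2 + q + 1 := by
  have h1 : (q : ℚ) - 1 ≠ 0 := by
    have : (2 : ℚ) ≤ q := by exact_mod_cast hq
    linarith
  have h2 : (q : ℚ) ^ 2 - 1 ≠ 0 := by
    have : (2 : ℚ) ≤ q := by exact_mod_cast hq
    nlinarith
  rw [gaussBinom, Finset.prod_range_succ, Finset.prod_range_one]
  norm_num
  field_simp
  ring

/-- The construction for one field. -/
theorem of_field (F : Type) [Field F] [Finite F] {q : ℕ} (hq2 : 2 ≤ q)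
    (hq : 2 * Nat.card F ≤ q + 2)
    (hc : q ^ 2 + q + 1 < Nat.card F ^ 2 + Nat.card F * (Nat.card F).choose 2) :
    ∃ (α : Type) (M : Matroid α), M.Finite ∧ IsSimple M ∧ M.eRank = 3 ∧ InU q M ∧
      gaussBinom 3 2 q < ({X : Set α | M.IsFlat X ∧ M.eRk X = 2}.ncard : ℚ) := by
  have hline : nv F (0, 0) ∈ lines F := Or.inl ⟨(0, 0), rfl⟩
  have hnot : ((0 : F), (1 : F)) ∉ nv F (0, 0) := by simp [nv]
  refine ⟨F × F, mat (isLinearSpace (F := F)), ⟨toFinite _⟩, mat_simple _,
    eRank_mat _ hline hnot, inU _ (by omega) (card_line_lt (by omega) (by omega))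
      (colouring (by omega)), ?_⟩
  rw [gauss_eq hq2]
  have h1 : lines F ⊆ {X : Set (F × F) | (mat (isLinearSpace (F := F))).IsFlat X ∧
      (mat (isLinearSpace (F := F))).eRk X = 2} :=
    fun L hL => ⟨isFlat_line _ hL, eRk_line _ hL⟩
  have h2 := ncard_le_ncard h1 (toFinite _)
  have h3 := card_lines (F := F)
  have h4 : q ^ 2 + q + 1 < {X : Set (F × F) | (mat (isLinearSpace (F := F))).IsFlat X ∧
      (mat (isLinearSpace (F := F))).eRk X = 2}.ncard := by omega
  exact_mod_cast h4

theorem of_prime {p q : ℕ} (hp : p.Prime) (hq2 : 2 ≤ q) (hq : 2 * p ≤ q + 2)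
    (hc : q ^ 2 + q + 1 < p ^ 2 + p * p.choose 2) :
    ∃ (α : Type) (M : Matroid α), M.Finite ∧ IsSimple M ∧ M.eRank = 3 ∧ InU q M ∧
      gaussBinom 3 2 q < ({X : Set α | M.IsFlat X ∧ M.eRk X = 2}.ncard : ℚ) := by
  have : Fact p.Prime := ⟨hp⟩
  have h1 : Nat.card (ZMod p) = p := Nat.card_zmod p
  exact of_field (ZMod p) hq2 (by rw [h1]; exact hq) (by rw [h1]; exact hc)

theorem exists_prime {q : ℕ} (hq : 118 ≤ q) :
    ∃ p : ℕ, p.Prime ∧ 2 * p ≤ q + 2 ∧ q ^ 2 + q + 1 < p ^ 2 + p * p.choose 2 := by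
  obtain ⟨p, hp, h1, h2⟩ := Nat.exists_prime_lt_and_le_two_mul ((q + 2) / 4) (by omega)
  refine ⟨p, hp, by omega, ?_⟩
  have h3 : q ≤ 4 * p - 3 := by omega
  have h4 : 31 ≤ p := by omega
  obtain ⟨m, rfl⟩ : ∃ m, p = m + 31 := ⟨p - 31, by omega⟩
  have h5 : 2 * (m + 31).choose 2 = (m + 31) * (m + 30) := by
    rw [Nat.choose_two_right]
    have : 2 ∣ (m + 31) * (m + 31 - 1) := (Nat.even_mul_pred_self (m + 31)).two_dvd
    rw [Nat.mul_div_cancel' this]
    congr 1
  have h6 : q ≤ 4 * m + 121 := by omega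
  have h7 : q ^ 2 + q + 1 ≤ (4 * m + 121) ^ 2 + (4 * m + 121) + 1 := by
    have := Nat.pow_le_pow_left h6 2
    omega
  refine lt_of_le_of_lt h7 ?_
  have h8 : 2 * ((4 * m + 121) ^ 2 + (4 * m + 121) + 1) <
      2 * ((m + 31) ^ 2 + (m + 31) * (m + 31).choose 2) := by
    have h9 : 2 * ((m + 31) ^ 2 + (m + 31) * (m + 31).choose 2) =
        2 * (m + 31) ^ 2 + (m + 31) * (2 * (m + 31).choose 2) := by ring
    rw [h9, h5]
    ring_nf
    nlinarith [sq_nonneg m]
  omega

/-- **There are more lines than in a projective plane of order `q`** in some rank-three matroid of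
`U(q)`, for `q = 8` and for every `q ≥ 12`. -/
theorem result (q : ℕ) (hq : q = 8 ∨ 12 ≤ q) :
    ∃ (α : Type) (M : Matroid α), M.Finite ∧ IsSimple M ∧ M.eRank = 3 ∧ InU q M ∧
      gaussBinom 3 2 q < ({X : Set α | M.IsFlat X ∧ M.eRk X = 2}.ncard : ℚ) := by
  rcases hq with rfl | hq
  · exact of_prime (p := 5) (by norm_num) (by norm_num) (by norm_num) (by decide)
  rcases Nat.lt_or_ge q 14 with h14 | h14
  · refine of_prime (p := 7) (by norm_num) (by omega) (by omega) ?_
    have : Nat.choose 7 2 = 21 := by decide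
    rw [this]
    nlinarith
  rcases Nat.lt_or_ge q 17 with h17 | h17
  · have h1 : Nat.card (GaloisField 2 3) = 8 := by
      rw [GaloisField.card 2 3 (by norm_num)]; norm_num
    refine of_field (GaloisField 2 3) (by omega) (by omega) ?_
    rw [h1]
    have : Nat.choose 8 2 = 28 := by decide
    rw [this]
    nlinarith
  rcases Nat.lt_or_ge q 20 with h20 | h20
  · have h1 : Nat.card (GaloisField 3 2) = 9 := by
      rw [GaloisField.card 3 2 (by norm_num)]; norm_num
    refine of_field (GaloisField 3 2) (by omega) (by omega) ?_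
    rw [h1]
    have : Nat.choose 9 2 = 36 := by decide
    rw [this]
    nlinarith
  rcases Nat.lt_or_ge q 27 with h27 | h27
  · refine of_prime (p := 11) (by norm_num) (by omega) (by omega) ?_
    have : Nat.choose 11 2 = 55 := by decide
    rw [this]
    nlinarith
  rcases Nat.lt_or_ge q 34 with h34 | h34
  · refine of_prime (p := 13) (by norm_num) (by omega) (by omega) ?_
    have : Nat.choose 13 2 = 78 := by decide
    rw [this]
    nlinarith
  rcases Nat.lt_or_ge q 51 with h51 | h51
  · refine of_prime (p := 17) (by norm_num) (by omega) (by omega) ?_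
    have : Nat.choose 17 2 = 136 := by decide
    rw [this]
    nlinarith
  rcases Nat.lt_or_ge q 60 with h60 | h60
  · refine of_prime (p := 19) (by norm_num) (by omega) (by omega) ?_
    have : Nat.choose 19 2 = 171 := by decide
    rw [this]
    nlinarith
  rcases Nat.lt_or_ge q 118 with h118 | h118
  · refine of_prime (p := 31) (by norm_num) (by omega) (by omega) ?_
    have : Nat.choose 31 2 = 465 := by decide
    rw [this]
    nlinarith
  · obtain ⟨p, hp, h1, h2⟩ := exists_prime h118
    exact of_prime hp (by omega) h1 h2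

end Pool.Agent.Results.MP_62a602_co.ManyLines
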